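import Pool.Agent.helper84.NR.SpecW

/-!
# Row nrw:WAL (MP_133bfc_co): the graph of a polyhedral map is connected
-/

set_option autoImplicit false

namespace Pool.Agent.helper84.NR

open scoped Classical
open Finset

theorem WAL_up {V F : Type} (M : Cyc V F) (f : F) (j : ℕ) :
    Relation.ReflTransGen (Adj M) (M.bd f 0) (M.bd f j) := by
  induction j with
  | zero => exact Relation.ReflTransGen.refl
  | succ j ih => exact ih.tail ⟨f, j, rfl⟩

theorem WAL_down {V F : Type} (M : Cyc V F) (f : F) (j : ℕ) :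
    Relation.ReflTransGen (Adj M) (M.bd f j) (M.bd f 0) := by
  induction j with
  | zero => exact Relation.ReflTransGen.refl
  | succ j ih =>
    refine Relation.ReflTransGen.head ⟨f, j, ?_⟩ ih
    exact Sym2.eq_swap

theorem WAL_face {V F : Type} (M : Cyc V F) (f : F) (v w : V) (hv : OnV M f v) (hw : OnV M f w) :
    Relation.ReflTransGen (Adj M) v w := by
  obtain ⟨i, rfl⟩ := hv
  obtain ⟨j, rfl⟩ := hw
  exact (WAL_down M f i).trans (WAL_up M f j)

theorem WAL_seq {V F : Type} (M : Cyc V F) (u v : V) (h : Relation.ReflTransGen (Adj M) u v) :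
    ∃ (n : ℕ) (r : ℕ → V), r 0 = u ∧ r n = v ∧ ∀ i, i < n → Adj M (r i) (r (i + 1)) := by
  induction h with
  | refl => exact ⟨0, fun _ => u, rfl, rfl, fun i hi => absurd hi (Nat.not_lt_zero i)⟩
  | @tail b c _ hbc ih =>
    obtain ⟨n, r, h0, hn, hr⟩ := ih
    refine ⟨n + 1, fun i => if i ≤ n then r i else c, ?_, ?_, ?_⟩
    · simp [h0]
    · simp
    · intro i hi
      by_cases h1 : i < n
      · have h2 : i ≤ n := h1.le
        have h3 : i + 1 ≤ n := h1
        simp only [h2, h3, if_true]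
        exact hr i h1
      · have h2 : i = n := by omega
        have h3 : ¬ (n + 1 ≤ n) := by omega
        rw [h2]
        simp only [le_refl, if_true, h3, if_false]
        rw [hn]
        exact hbc

theorem WAL : WAL_stmt := by
  intro V F M u v
  apply WAL_seq
  obtain ⟨f, hf⟩ := M.cover u
  obtain ⟨g, hg⟩ := M.cover v
  have hS := M.conn {f | ∃ w, OnV M.toCyc f w ∧ Relation.ReflTransGen (Adj M.toCyc) u w} ?_ f g
    ⟨u, hf, Relation.ReflTransGen.refl⟩
  · obtain ⟨w, hw, huw⟩ := hS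
    exact huw.trans (WAL_face M.toCyc g w v hw hg)
  · rintro e f' g' ⟨k, hk⟩ ⟨k', hk'⟩ ⟨w, hw, huw⟩
    refine ⟨M.bd f' k, ?_, huw.trans (WAL_face M.toCyc f' w _ hw ⟨k, rfl⟩)⟩
    rw [hk] at hk'
    rcases Sym2.eq_iff.1 hk' with h | h
    · exact ⟨k', h.1.symm⟩
    · exact ⟨k' + 1, h.1.symm⟩

end Pool.Agent.helper84.NR
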